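import Mathlib

/-! # Digits: a packed integer `∑ c_k B^k` with `∑ |c_k| < B` which is zero has all `c_k = 0` -/

namespace Pool.Agent.H2AG

open Finset

/-- Digits, functions on `{0, …, n - 1}`. -/
theorem dig_range (B : ℕ) (n : ℕ) (c : ℕ → ℤ) (hm : ∑ k ∈ range n, (c k).natAbs < B)
    (h0 : ∑ k ∈ range n, c k * (B : ℤ) ^ k = 0) : ∀ k < n, c k = 0 := by
  induction n generalizing c with
  | zero => intro k hk; omega
  | succ n ih =>
    rw [sum_range_succ'] at hm h0
    have hB : (0 : ℤ) < B := by
      have : 0 < B := by omega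
      exact_mod_cast this
    have e : ∑ k ∈ range n, c (k + 1) * (B : ℤ) ^ (k + 1) =
        B * ∑ k ∈ range n, c (k + 1) * (B : ℤ) ^ k := by
      rw [mul_sum]
      exact sum_congr rfl fun k _ => by ring
    rw [e, pow_zero, mul_one] at h0
    have hd : (B : ℤ) ∣ c 0 := by
      refine ⟨-∑ k ∈ range n, c (k + 1) * (B : ℤ) ^ k, ?_⟩
      linarith
    have hc : c 0 = 0 := by
      apply Int.eq_zero_of_abs_lt_dvd hd
      have : (c 0).natAbs < B := by omega
      rw [Int.abs_eq_natAbs]
      exact_mod_cast this
    rw [hc, add_zero] at h0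
    have h1 : ∑ k ∈ range n, c (k + 1) * (B : ℤ) ^ k = 0 := by
      rcases mul_eq_zero.mp h0 with h | h
      · omega
      · exact h
    have h2 := ih (fun k => c (k + 1)) (by omega) h1
    intro k hk
    cases k with
    | zero => exact hc
    | succ k => exact h2 k (by omega)

/-- Digits, finitely supported functions. -/
theorem dig_finsupp (B : ℕ) (p : ℕ →₀ ℤ) (hm : (p.sum fun _ c => c.natAbs) < B)
    (h0 : (p.sum fun k c => c * (B : ℤ) ^ k) = 0) : p = 0 := by
  obtain ⟨n, hn⟩ : ∃ n, p.support ⊆ range n :=
    ⟨p.support.sup id + 1, fun k hk => by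
      have : k ≤ p.support.sup id := Finset.le_sup (f := id) hk
      rw [mem_range]
      omega⟩
  rw [Finsupp.sum_of_support_subset p hn _ (by simp)] at hm
  rw [Finsupp.sum_of_support_subset p hn _ (by simp)] at h0
  have h := dig_range B n p hm h0
  ext k
  by_cases hk : k < n
  · simpa using h k hk
  · have : k ∉ p.support := fun h' => hk (mem_range.mp (hn h'))
    simpa using Finsupp.notMem_support_iff.mp this

/-- The finitely supported function of a list of terms `(coefficient, class)`. -/
noncomputable def toF (T : List (ℤ × ℕ)) : ℕ →₀ ℤ := (T.map fun t => Finsupp.single t.2 t.1).sum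

theorem toF_cons (t : ℤ × ℕ) (T : List (ℤ × ℕ)) : toF (t :: T) = Finsupp.single t.2 t.1 + toF T := by
  unfold toF
  rw [List.map_cons, List.sum_cons]

theorem mass_add_le (p q : ℕ →₀ ℤ) : ((p + q).sum fun _ c => c.natAbs) ≤
    (p.sum fun _ c => c.natAbs) + q.sum fun _ c => c.natAbs := by
  classical
  set s := p.support ∪ q.support with hs
  rw [Finsupp.sum_of_support_subset (p + q) (Finsupp.support_add) _ (by simp),
    Finsupp.sum_of_support_subset p (subset_union_left : _ ⊆ s) _ (by simp),
    Finsupp.sum_of_support_subset q (subset_union_right : _ ⊆ s) _ (by simp), ← sum_add_distrib]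
  exact sum_le_sum fun k _ => by
    rw [Finsupp.add_apply]
    exact Int.natAbs_add_le _ _

theorem mass_toF_le (T : List (ℤ × ℕ)) :
    ((toF T).sum fun _ c => c.natAbs) ≤ (T.map fun t => t.1.natAbs).sum := by
  induction T with
  | nil => simp [toF]
  | cons t T ih =>
    rw [toF_cons, List.map_cons, List.sum_cons]
    refine (mass_add_le _ _).trans (Nat.add_le_add ?_ ih)
    rw [Finsupp.sum_single_index (by simp)]

theorem sum_toF {M : Type*} [AddCommMonoid M] (T : List (ℤ × ℕ)) (h : ℕ → ℤ →+ M) :
    ((toF T).sum fun k c => h k c) = (T.map fun t => h t.2 t.1).sum := by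
  induction T with
  | nil => simp [toF]
  | cons t T ih =>
    rw [toF_cons, List.map_cons, List.sum_cons, ← ih]
    have e1 : ((Finsupp.single t.2 t.1 + toF T).sum fun k c => h k c) =
        ((Finsupp.single t.2 t.1).sum fun k c => h k c) + (toF T).sum fun k c => h k c :=
      Finsupp.sum_add_index' (fun k => (h k).map_zero) (fun k => (h k).map_add)
    have e2 : ((Finsupp.single t.2 t.1).sum fun k c => h k c) = h t.2 t.1 :=
      Finsupp.sum_single_index (h t.2).map_zero
    rw [e1, e2]

/-- **Digits, list form.** If the total mass is less than `B` and the packed integer is zero, then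
the linear combination of arbitrary real numbers `y k` with the same coefficients is zero. -/
theorem dig_list (B : ℕ) (T : List (ℤ × ℕ)) (hm : (T.map fun t => t.1.natAbs).sum < B)
    (h0 : (T.map fun t => t.1 * (B : ℤ) ^ t.2).sum = 0) (y : ℕ → ℝ) :
    (T.map fun t => (t.1 : ℝ) * y t.2).sum = 0 := by
  have h1 := sum_toF T (fun k => AddMonoidHom.mulRight ((B : ℤ) ^ k))
  simp only [AddMonoidHom.coe_mulRight] at h1
  rw [h0] at h1
  have h2 := dig_finsupp B (toF T) ((mass_toF_le T).trans_lt hm) h1
  have h3 := sum_toF T (fun k => (AddMonoidHom.mulRight (y k)).comp (Int.castAddHom ℝ))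
  simp only [AddMonoidHom.coe_comp, Function.comp_apply, Int.coe_castAddHom,
    AddMonoidHom.coe_mulRight] at h3
  rw [← h3, h2, Finsupp.sum_zero_index]

/-- Two lists with the same packed integer give the same linear combinations. -/
theorem dig_list₂ (B : ℕ) (T S : List (ℤ × ℕ))
    (hm : (T.map fun t => t.1.natAbs).sum + (S.map fun t => t.1.natAbs).sum < B)
    (h0 : (T.map fun t => t.1 * (B : ℤ) ^ t.2).sum = (S.map fun t => t.1 * (B : ℤ) ^ t.2).sum)
    (y : ℕ → ℝ) : (T.map fun t => (t.1 : ℝ) * y t.2).sum = (S.map fun t => (t.1 : ℝ) * y t.2).sum := by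
  have h := dig_list B (T ++ S.map fun t => (-t.1, t.2)) (by
    rw [List.map_append, List.sum_append, List.map_map]
    have e : ((fun t : ℤ × ℕ => t.1.natAbs) ∘ fun t : ℤ × ℕ => (-t.1, t.2)) =
        fun t => t.1.natAbs := by
      funext t
      simp
    rw [e]
    exact hm) (by
    rw [List.map_append, List.sum_append, List.map_map, h0]
    have e : (S.map ((fun t : ℤ × ℕ => t.1 * (B : ℤ) ^ t.2) ∘ fun t : ℤ × ℕ => (-t.1, t.2))).sum =
        -(S.map fun t => t.1 * (B : ℤ) ^ t.2).sum := by
      induction S with
      | nil => simp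
      | cons t S ih => 
        simp only [List.map_cons, List.sum_cons, Function.comp_apply]
        have ih' : (S.map ((fun t : ℤ × ℕ => t.1 * (B : ℤ) ^ t.2) ∘
            fun t : ℤ × ℕ => (-t.1, t.2))).sum = -(S.map fun t => t.1 * (B : ℤ) ^ t.2).sum := by
          clear ih hm h0
          induction S with
          | nil => simp
          | cons t S ih => simp only [List.map_cons, List.sum_cons, Function.comp_apply, ih]; ring
        rw [ih']
        ring
    rw [e, add_neg_cancel]) y
  rw [List.map_append, List.sum_append, List.map_map] at h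
  have e : (S.map ((fun t : ℤ × ℕ => (t.1 : ℝ) * y t.2) ∘ fun t : ℤ × ℕ => (-t.1, t.2))).sum =
      -(S.map fun t => (t.1 : ℝ) * y t.2).sum := by
    clear h h0 hm
    induction S with
    | nil => simp
    | cons t S ih =>
      simp only [List.map_cons, List.sum_cons, Function.comp_apply, ih]
      push_cast
      ring
  rw [e] at h
  linarith

end Pool.Agent.H2AG
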